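import Pool.Agent.Lib.MP_7b66ee_ag.Cst.Main
import Pool.Agent.Lib.MP_7b66ee_ag.Stmt

/-! The Zariski closure of an analytic map from the multiplicative group does not dominate a
constant variety with big bundle of 2-forms. -/

namespace Pool.Agent.Results.MP_7b66ee_ag.ConstantSurface

open AlgebraicGeometry CategoryTheory Pool.Agent.Lib.MP_7b66ee_ag

universe u

theorem result {K : Type u} [NontriviallyNormedField K] [IsUltrametricDist K] [CompleteSpace K]
    [IsAlgClosed K] [CharZero K] (k : Subfield K) (hk : ∀ a ∈ k, ‖a‖ ≤ 1)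
    (X : Over (Spec (.of K))) (f : St.Fam X (St.Ann K) fun r => St.An (St.Ann K r)) :
    ∃ x : X.left, IsGenericPoint x (closure f.im) ∧
      ∀ (F : Type u) [Field F] [Algebra k F] [Algebra.EssFiniteType k F]
        (φ : F →+* X.left.residueField x), (∀ c : k, φ (algebraMap k F c) = Cst.cst X x c) →
        2 ≤ Algebra.trdeg k F → Cst.Big k (KaehlerDifferential.D k F) →
        ∀ y, ∃ c : K, φ y = Cst.cst X x c := by
  have e : (fun r => St.An (St.Ann K r)) = fun r => An K r :=
    funext fun r => Algebra.adjoin_eq (An K r)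
  revert f
  rw [e]
  intro f
  exact Cst.main k hk X ⟨f.map, f.comm, fun r s h => f.compat r s
    (fun z hz => (incl K h ⟨z, hz⟩).2) _ fun _ _ => rfl⟩

end Pool.Agent.Results.MP_7b66ee_ag.ConstantSurface
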