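import Pool.Agent.Lib.MP_7b66ee_ag.Main
import Pool.Agent.Lib.MP_7b66ee_ag.Stmt

/-! An analytic map from the multiplicative group whose Zariski closure is of general type and
generically finite over a proper group scheme is constant. -/

namespace Pool.Agent.Results.MP_7b66ee_ag.Degeneracy

open AlgebraicGeometry CategoryTheory Pool.Agent.Lib.MP_7b66ee_ag.St

universe u

theorem result {K : Type u} [NontriviallyNormedField K] [IsUltrametricDist K] [CompleteSpace K]
    [IsAlgClosed K] [CharZero K] (A X : Over (Spec (.of K))) [GrpObj A] [IsProper A.hom]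
    [IsProper X.hom] (π : X ⟶ A) (f : Fam X (Ann K) fun r => An (Ann K r)) :
    ∃ x : X.left, IsGenericPoint x (closure f.im) ∧
      ((π.left.residueFieldMap x).hom.Finite → GenTypeAt X x → ∃ y, f.im = {y}) := by
  have e : (fun r => An (Ann K r)) = fun r => Lib.MP_7b66ee_ag.An K r :=
    funext fun r => Algebra.adjoin_eq (Lib.MP_7b66ee_ag.An K r)
  revert f
  rw [e]
  intro f
  obtain ⟨x, h1, h2⟩ := Lib.MP_7b66ee_ag.degen A X π ⟨f.map, f.comm, fun r s h => f.compat r s
    (fun z hz => (Lib.MP_7b66ee_ag.incl K h ⟨z, hz⟩).2) _ fun _ _ => rfl⟩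
  refine ⟨x, h1, fun a b => (h2 a b).imp fun y hy => ?_⟩
  have hs : f.im ⊆ {y} := Set.iUnion_subset fun r _ ⟨p, hp⟩ => hp ▸ hy r p
  refine (Set.subset_singleton_iff_eq.1 hs).resolve_left fun h => ?_
  have : x ∈ closure f.im := h1.mem
  simp [h] at this

end Pool.Agent.Results.MP_7b66ee_ag.Degeneracy
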