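import Pool.Agent.Lib.MP_7b66ee_ag.Kob.Main
import Pool.Agent.Lib.MP_7b66ee_ag.Kob.Gen

/-! In residue characteristic zero, topologically generic complete intersections of total degree
at least 2n + c in an arbitrary projective variety receive no nonconstant analytic map from the
multiplicative group. -/

namespace Pool.Agent.Results.MP_7b66ee_ag.Kobayashi

open MvPolynomial Pool.Agent.Lib.MP_7b66ee_ag.Kob

universe u

theorem result {K : Type u} [NontriviallyNormedField K] [IsUltrametricDist K] [CompleteSpace K]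
    [IsAlgClosed K] (hK : ∀ m : ℕ, m ≠ 0 → ‖(m : K)‖ = 1) (k : Subfield K) (N n c : ℕ)
    (hn : 2 ≤ n) (d : Fin c → ℕ) (hd : 2 * n + c ≤ ∑ l, d l)
    (G : Set (MvPolynomial (Fin (N + 1)) k)) (hG : ∀ g ∈ G, ∃ e, g.IsHomogeneous e)
    (dim : ringKrullDim (MvPolynomial (Fin (N + 1)) k ⧸ Ideal.span G) ≤ (n + c + 1 : ℕ)) :
    ∃ U : Set (Mon N d → K), IsOpen U ∧ Gen k (Mon N d) ⊆ U ∧
      ((∀ S : Finset K, Cl (k ∪ S : Set K) ≠ Set.univ) → Dense U) ∧
      ∀ a ∈ U, ∀ x : Fin (N + 1) → Kˣ → K, (∀ i, Hol (x i)) → (∀ z, ∃ i, x i z ≠ 0) →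
        (∀ z, ∀ g ∈ G, aeval (fun i => x i z) g = 0) →
        (∀ z l, ∑ I, a ⟨l, I⟩ * ∏ i, x i z ^ I.1 i = 0) →
        ∃ p : Fin (N + 1) → K, ∀ z, ∃ t : K, ∀ i, x i z = t * p i := by
  classical
  refine ⟨_, isOpen_Gen hK k _, subset_rfl, dense_Gen hK k _, fun a ha x hx h0 hg hF => ?_⟩
  choose b hb hx using hx
  let F : Fin c → MvPolynomial (Fin (N + 1)) K := fun l => ∑ I, monomial I.1 (a ⟨l, I⟩)
  have mem : ∀ l (I : Fin (N + 1) →₀ ℕ),
      I ∈ Finset.finsuppAntidiag Finset.univ (d l) ↔ I.degree = d l := fun l I => by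
    simp [Finsupp.degree_eq_sum]
  have c1 : ∀ l I, coeff I (F l) =
      if h : I ∈ Finset.finsuppAntidiag Finset.univ (d l) then a ⟨l, I, h⟩ else 0 := fun l I => by
    simp only [F, coeff_sum, coeff_monomial]
    split_ifs with h
    · rw [Finset.sum_eq_single ⟨I, h⟩ (fun I' _ h' => if_neg fun e => h' (Subtype.ext e))
        (by simp), if_pos rfl]
    · exact Finset.sum_eq_zero fun I' _ => if_neg fun e : I'.1 = I => h (e ▸ I'.2)
  have ex : ∀ z, (fun i => ev z (serE (b i) (hb i))) = fun i => x i z := fun z =>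
    funext fun i => (hx i z).symm
  have sub : ∀ l I hI, (k ∪ {b | ∃ l' I', (l', I') ≠ (l, I) ∧ b = coeff I' (F l')} : Set K) ⊆
      Subfield.closure (k ∪ a '' {⟨l, I, hI⟩}ᶜ) := by
    rintro l I hI y (hy | ⟨l', I', hne, rfl⟩)
    · exact Subfield.subset_closure (Or.inl hy)
    · rw [c1]
      split_ifs with h
      · refine Subfield.subset_closure (Or.inr ⟨_, fun e => hne ?_, rfl⟩)
        cases e; rfl
      · exact zero_mem _
  obtain ⟨p, f, h⟩ := main hK (k := k) (d := d) (F := F)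
    (fun l => IsHomogeneous.sum _ _ _ fun I _ => isHomogeneous_monomial _ ((mem l _).1 I.2))
    (fun l I hI h => ha ⟨l, I, (mem l I).2 hI⟩ (Cl_mono (sub l I _) (by
      rw [c1, dif_pos ((mem l I).2 hI)] at h
      exact h))) hG dim (by simp only [Fintype.card_fin]; omega)
    (by simp only [Fintype.card_fin]; omega) b hb _ (fun _ => rfl)
    (fun l => ent_ext fun z => by
      rw [comp_aeval_apply, ex, map_zero, ← hF z l]
      simp [F, aeval_monomial, Finsupp.prod_fintype])
    (fun g hg' => ent_ext fun z => by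
      have := comp_aeval_apply (fun i => serE (b i) (hb i)) ((ev z).restrictScalars k) g
      rw [map_zero, ← hg z g hg', ← ex]
      exact this)
    (fun z => (h0 z).imp fun i hi => by rwa [congrFun (ex z) i])
  exact ⟨p, fun z => ⟨ev z f, fun i => by rw [← congrFun (ex z) i, h i]; simp [mul_comm]⟩⟩

end Pool.Agent.Results.MP_7b66ee_ag.Kobayashi
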